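import Pool.Agent.Q227.SC.Alg

/-!
# Split clique graphs with a bounded stable side are recognised in polynomial time

The definitions `SplitWith` and `IsCliqueGraph` are in `Pool.Agent.Q227.SC.Alg` and
`Pool.Agent.H601R2.PCG.Defs`.

A graph is a clique graph if and only if it has a family of complete sets which covers the edges
and has the Helly property. Such a family remains one when a vertex is replaced by several pairwise
adjacent twins. For a split graph with stable side `S`, `|S| ≤ k`, the other vertices fall into at
most `2 ^ k` classes of adjacent twins, according to their neighbours in `S`; so, for every set of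
nonempty classes, the vectors of class sizes of the clique graphs form an up-set, which by Dickson's
lemma has finitely many minimal elements.
-/

set_option autoImplicit false

namespace Pool.Agent.Results.MP_4c1bf1_lc.BoundedStableSideInP

open Pool.Agent.NPC Pool.Agent.H601R2.PCG Pool.Agent.Q227.SC

/-- **Theorem.** For every fixed `k` there is a polynomial-time algorithm (a Turing machine in
Mathlib's sense, answering `true` or `false` on every input) which decides, for every finite graph
given by its adjacency matrix, whether it is a split graph with a stable side of at most `k`
vertices and a clique graph. In particular, for split graphs with a stable side of at most `k`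
vertices it decides whether they are clique graphs. -/
theorem result : ∀ k : ℕ, ∃ V : List Bool → List Bool, PolyTime V ∧
    (∀ x, V x = [true] ∨ V x = [false]) ∧
    ∀ (n : ℕ) (G : SimpleGraph (Fin n)),
      (V (bits (R671.adjMatrix G)) = [true] ↔ SplitWith k G ∧ IsCliqueGraph G) ∧
      (SplitWith k G → (V (bits (R671.adjMatrix G)) = [true] ↔ IsCliqueGraph G)) := by
  obtain ⟨B, hB⟩ := exists_consts
  intro k
  refine ⟨fun x => [(unbits (List (List Bool)) x).elim false
    (fun m => !m.isEmpty && alg B k m)], ?_, fun x => ?_, fun n G => ?_⟩
  · exact polyTime_of_poly (Poly.optElim (h := fun _ m => !m.isEmpty && alg B k m) poly_unbits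
      (NPC.Poly.const _) (NPC.Poly.and (NPC.Poly.not (NPC.Poly.isEmpty (NPC.Poly.snd NPC.Poly.id)))
        ((alg_poly B k).comp (Poly.snd Poly.id))))
  · simp only [List.cons.injEq, and_true]
    exact Bool.eq_false_or_eq_true _
  · have h1 : [(unbits (List (List Bool)) (bits (R671.adjMatrix G))).elim false
        (fun m => !m.isEmpty && alg B k m)] = [true] ↔ SplitWith k G ∧ IsCliqueGraph G := by
      rcases Nat.eq_zero_or_pos n with rfl | hn
      · refine iff_of_false ?_ (fun h => ?_)
        · simp [unbits_bits, R671.adjMatrix]
        · obtain ⟨x⟩ := (good_of_isCliqueGraph h.2).1
          exact x.elim0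
      · rw [← hB k n G hn]
        have h2 : (R671.adjMatrix G).isEmpty = false := by
          rw [← Bool.not_eq_true, List.isEmpty_iff_length_eq_zero, length_adjMatrix]
          omega
        simp [unbits_bits, h2]
    exact ⟨h1, fun h2 => h1.trans ⟨fun h => h.2, fun h => ⟨h2, h⟩⟩⟩

end Pool.Agent.Results.MP_4c1bf1_lc.BoundedStableSideInP
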